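import Pool.Agent.helper97.KR.Spec

/-!
# Row kr:TWO
-/

set_option autoImplicit false

namespace Pool.Agent.helper97.KR

open Finset Classical

noncomputable section

theorem TWO : TWO_stmt := by
  intro V E ends S F hG hS _
  obtain ⟨T, hc, hcon, hdis, hF⟩ := hG.tr
  have hcard1 : ∀ i, ∃ t, T i = {t} := fun i => Finset.card_eq_one.1 (by
    have := hc i
    omega)
  choose t ht using hcard1
  have hne : ∀ i i', i ≠ i' → t i ≠ t i' := by
    intro i i' hii h
    have h1 := hdis i i' hii
    rw [ht i, ht i', Finset.disjoint_singleton] at h1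
    exact h1 h
  have hm : (S.card : ℤ) - 1 = 1 := by
    rw [hS]
    norm_num
  have hmem : ∀ i, t i ∈ F := fun i => (hF _).2 ⟨i, by rw [ht i]; exact Finset.mem_singleton_self _⟩
  let c : ℤ → E := fun j => if j % 3 = 0 then t 0 else if j % 3 = 1 then t 1 else t 2
  have hcj : ∀ j, ∃ i, c j = t i := by
    intro j
    simp only [c]
    split_ifs
    · exact ⟨0, rfl⟩
    · exact ⟨1, rfl⟩
    · exact ⟨2, rfl⟩
  have c0 : c 0 = t 0 := by simp [c]
  have c1 : c 1 = t 1 := by simp [c]
  have c2 : c 2 = t 2 := by simp [c]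
  refine ⟨c, ?_, ?_, ?_⟩
  · intro j
    rw [hm]
    have h3 : (j + 3 * 1) % 3 = j % 3 := by omega
    simp only [c, h3]
  · rw [hm]
    refine ⟨?_, ?_, ?_⟩
    · intro j _
      obtain ⟨i, hi⟩ := hcj j
      rw [hi]
      exact hmem i
    · intro j hj k hk hjk
      rw [Set.mem_Ico] at hj hk
      have hj' : j = 0 ∨ j = 1 ∨ j = 2 := by omega
      have hk' : k = 0 ∨ k = 1 ∨ k = 2 := by omega
      rcases hj' with rfl | rfl | rfl <;> rcases hk' with rfl | rfl | rfl
      · rfl
      · rw [c0, c1] at hjk
        exact absurd hjk (hne 0 1 (by decide))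
      · rw [c0, c2] at hjk
        exact absurd hjk (hne 0 2 (by decide))
      · rw [c1, c0] at hjk
        exact absurd hjk (hne 1 0 (by decide))
      · rfl
      · rw [c1, c2] at hjk
        exact absurd hjk (hne 1 2 (by decide))
      · rw [c2, c0] at hjk
        exact absurd hjk (hne 2 0 (by decide))
      · rw [c2, c1] at hjk
        exact absurd hjk (hne 2 1 (by decide))
      · rfl
    · intro e he
      obtain ⟨i, hi⟩ := (hF e).1 he
      rw [ht i, Finset.mem_singleton] at hi
      have hi' : i = 0 ∨ i = 1 ∨ i = 2 := by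
        fin_cases i <;> simp
      rcases hi' with h | h | h
      · exact ⟨0, by rw [Set.mem_Ico]; norm_num, by rw [c0, hi, h]⟩
      · exact ⟨1, by rw [Set.mem_Ico]; norm_num, by rw [c1, hi, h]⟩
      · exact ⟨2, by rw [Set.mem_Ico]; norm_num, by rw [c2, hi, h]⟩
  · intro j
    rw [hm]
    obtain ⟨i, hi⟩ := hcj j
    have hw : c '' Set.Ico j (j + 1) = (T i : Set E) := by
      have h1 : Set.Ico j (j + 1) = {j} := by
        ext k
        rw [Set.mem_Ico, Set.mem_singleton_iff]
        omega
      rw [h1, Set.image_singleton, hi, ht i, Finset.coe_singleton]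
    rw [hw]
    exact hcon i

end

end Pool.Agent.helper97.KR

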